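import Pool.Agent.Helper23.PL.Defs
import Pool.Agent.Helper43.HH.Energy

/-!
# PL-3 (TSb): tripods with one common foot outside `U` (helper26)
-/

set_option autoImplicit false

open Set
open Pool.Agent.Helper83.OP Pool.Agent.Helper93.HH Pool.Agent.Helper43.HH

namespace Pool.Agent.Helper26.PL

section tri

variable {V : Type} [Fintype V] {H : SimpleGraph V} {U : Set V}

omit [Fintype V] in
/-- number of edges of a tripod with short legs -/
theorem tri_es_le (T : Tri H U) (l : ℕ) (hl : ∀ j, (T.W j).length ≤ 2 * l) : T.es.ncard ≤ 6 * l := by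
  classical
  have h : T.es ⊆ ((Finset.univ : Finset (Fin 3)).biUnion fun j => (T.W j).edges.toFinset : Finset (Sym2 V)) := by
    rintro f ⟨j, hf⟩
    rw [Finset.mem_coe, Finset.mem_biUnion]
    exact ⟨j, Finset.mem_univ _, List.mem_toFinset.2 hf⟩
  refine (Set.ncard_le_ncard h (Finset.finite_toSet _)).trans ?_
  rw [Set.ncard_coe_finset]
  refine (Finset.card_biUnion_le_card_mul _ _ (2 * l) (fun j _ => ?_)).trans ?_
  · refine (List.toFinset_card_le _).trans ?_
    rw [SimpleGraph.Walk.length_edges]
    exact hl j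
  · rw [Finset.card_univ, Fintype.card_fin]
    omega

omit [Fintype V] in
/-- number of vertices of a tripod with short legs -/
theorem tri_vs_le (T : Tri H U) (l : ℕ) (hl : ∀ j, (T.W j).length ≤ 2 * l) :
    (T.vs \ {T.c}).ncard ≤ 6 * l := by
  classical
  have h : T.vs \ {T.c} ⊆
      ((Finset.univ : Finset (Fin 3)).biUnion fun j => (T.W j).support.tail.toFinset : Finset V) := by
    rintro v ⟨⟨_, j, hv⟩, hc⟩
    rw [Finset.mem_coe, Finset.mem_biUnion]
    refine ⟨j, Finset.mem_univ _, List.mem_toFinset.2 ?_⟩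
    rcases (SimpleGraph.Walk.mem_support_iff (T.W j)).1 hv with h1 | h1
    · exact absurd h1 hc
    · exact h1
  refine (Set.ncard_le_ncard h (Finset.finite_toSet _)).trans ?_
  rw [Set.ncard_coe_finset]
  refine (Finset.card_biUnion_le_card_mul _ _ (2 * l) (fun j _ => ?_)).trans ?_
  · refine (List.toFinset_card_le _).trans ?_
    rw [List.length_tail, SimpleGraph.Walk.length_support]
    have := hl j
    omega
  · rw [Finset.card_univ, Fintype.card_fin]
    omega

/-- Tripods that are disjoint but for common centres. -/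
theorem tri_sum (X : Sym2 V → Sym2 V → Prop) (hs : ∀ f f', X f f' → X f' f)
    (h1 : ∀ f ∈ H.edgeSet, {f' | f' ∈ H.edgeSet ∧ X f f'}.ncard ≤ 1) (hP : PlanarLike H X)
    {G : Type} [Fintype G] (T : G → Tri H U) (mu : G → ℝ) (l : ℕ)
    (hE : ∀ g g', ∀ f ∈ (T g).es, f ∈ (T g').es → g = g')
    (hV : ∀ g g', ∀ v ∈ (T g).vs, v ∈ (T g').vs → v ≠ (T g).c → g = g')
    (hmu0 : ∀ g, 0 ≤ mu g) (hmu : ∀ g, mu g ≤ 1 / ((l : ℝ) + 1))
    (hc : ∀ g (S : Finset G), (∀ g' ∈ S, (T g).c ∈ (T g').vs) → ∑ g' ∈ S, mu g' ≤ 1)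
    (hl : ∀ g j, ((T g).W j).length ≤ 2 * l) :
    ∑ g, mu g ≤ 13 * (132 * U.ncard) := by
  classical
  have hl0 : (0 : ℝ) < (l : ℝ) + 1 := by positivity
  refine el_uniform X hs h1 hP Finset.univ T mu (fun g _ => hmu0 g) 13 (by norm_num) ?_
  intro g _
  have e1 : ∀ f ∈ (T g).es.toFinset, phiE Finset.univ T mu f ≤ 1 / ((l : ℝ) + 1) := by
    intro f hf
    unfold phiE
    refine le_trans ?_ (hmu g)
    rw [← Finset.sum_singleton mu g]
    refine Finset.sum_le_sum_of_subset_of_nonneg ?_ (fun y _ _ => hmu0 y)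
    intro g' hg'
    rw [Finset.mem_singleton]
    exact (hE g g' f (Set.mem_toFinset.1 hf) (Finset.mem_filter.1 hg').2).symm
  have e2 : ∀ v ∈ (T g).vs.toFinset.erase (T g).c, phiV Finset.univ T mu v ≤ 1 / ((l : ℝ) + 1) := by
    intro v hv
    obtain ⟨hv1, hv2⟩ := Finset.mem_erase.1 hv
    unfold phiV
    refine le_trans ?_ (hmu g)
    rw [← Finset.sum_singleton mu g]
    refine Finset.sum_le_sum_of_subset_of_nonneg ?_ (fun y _ _ => hmu0 y)
    intro g' hg'
    rw [Finset.mem_singleton]
    exact (hV g g' v (Set.mem_toFinset.1 hv2) (Finset.mem_filter.1 hg').2 hv1).symm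
  have e3 : phiV Finset.univ T mu (T g).c ≤ 1 := by
    unfold phiV
    apply hc g
    intro g' hg'
    exact (Finset.mem_filter.1 hg').2
  have hcm : (T g).c ∈ (T g).vs.toFinset := Set.mem_toFinset.2 (c_mem_vs _)
  have f1 : ∑ v ∈ (T g).vs.toFinset, phiV Finset.univ T mu v ≤ 1 + 6 := by
    rw [← Finset.add_sum_erase _ _ hcm]
    refine add_le_add e3 ?_
    refine (Finset.sum_le_card_nsmul _ _ _ e2).trans ?_
    rw [nsmul_eq_mul]
    have h2 : ((T g).vs.toFinset.erase (T g).c).card ≤ 6 * l := by
      have h3 := tri_vs_le (T g) l (hl g)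
      rw [Set.ncard_eq_toFinset_card'] at h3
      refine le_trans (le_of_eq ?_) h3
      congr 1
      ext v
      simp [and_comm]
    have h4 : (((T g).vs.toFinset.erase (T g).c).card : ℝ) ≤ 6 * l := by exact_mod_cast h2
    calc (((T g).vs.toFinset.erase (T g).c).card : ℝ) * (1 / ((l : ℝ) + 1))
        ≤ 6 * l * (1 / ((l : ℝ) + 1)) := mul_le_mul_of_nonneg_right h4 (by positivity)
      _ = 6 * (l / ((l : ℝ) + 1)) := by ring
      _ ≤ 6 * 1 := by
          apply mul_le_mul_of_nonneg_left _ (by norm_num)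
          rw [div_le_one hl0]; linarith
      _ = 6 := by norm_num
  have f2 : ∑ f ∈ (T g).es.toFinset, phiE Finset.univ T mu f ≤ 6 := by
    refine (Finset.sum_le_card_nsmul _ _ _ e1).trans ?_
    rw [nsmul_eq_mul]
    have h2 : (T g).es.toFinset.card ≤ 6 * l := by
      have h3 := tri_es_le (T g) l (hl g)
      rwa [Set.ncard_eq_toFinset_card'] at h3
    have h4 : ((T g).es.toFinset.card : ℝ) ≤ 6 * l := by exact_mod_cast h2
    calc ((T g).es.toFinset.card : ℝ) * (1 / ((l : ℝ) + 1))
        ≤ 6 * l * (1 / ((l : ℝ) + 1)) := mul_le_mul_of_nonneg_right h4 (by positivity)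
      _ = 6 * (l / ((l : ℝ) + 1)) := by ring
      _ ≤ 6 * 1 := by
          apply mul_le_mul_of_nonneg_left _ (by norm_num)
          rw [div_le_one hl0]; linarith
      _ = 6 := by norm_num
  linarith

end tri

/-- Groups of three in the fibres. -/
theorem groups {I V : Type} [Finite I] (f : I → V) :
    ∃ m : (Σ s : V, Fin ({i | f i = s}.ncard / 3)) → Fin 3 → I,
      (∀ g a, f (m g a) = g.1) ∧ ∀ g a g' a', m g a = m g' a' → g = g' ∧ a = a' := by
  classical
  have he : ∀ s : V, ∃ e : Fin {i | f i = s}.ncard → I, Function.Injective e ∧ ∀ j, f (e j) = s := by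
    intro s
    have h1 : Nat.card ({i | f i = s} : Set I) = {i | f i = s}.ncard := rfl
    let e := (Finite.equivFinOfCardEq h1).symm
    exact ⟨fun j => (e j).1, fun a b hab => e.injective (Subtype.ext hab), fun j => (e j).2⟩
  choose e he1 he2 using he
  refine ⟨fun g a => e g.1 ⟨3 * g.2.1 + a.1, ?_⟩, ?_, ?_⟩
  · have h1 := g.2.2
    have h2 := a.2
    omega
  · intro g a
    exact he2 _ _
  · rintro ⟨s, g⟩ a ⟨s', g'⟩ a' h
    have hss : s = s' := by
      have h1 := he2 s ⟨3 * g.1 + a.1, by have := g.2; have := a.2; omega⟩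
      have h2 := he2 s' ⟨3 * g'.1 + a'.1, by have := g'.2; have := a'.2; omega⟩
      rw [← h1, ← h2]
      exact congrArg f h
    subst hss
    have h1 := congrArg Fin.val (he1 s h)
    simp only at h1
    have h2 := a.2
    have h3 := a'.2
    have h4 : g = g' := Fin.ext (by omega)
    have h5 : a = a' := Fin.ext (by omega)
    exact ⟨by rw [h4], h5⟩

/-- Representatives of three different pairs. -/
theorem sdr {V : Type} (b c : Fin 3 → V) (hbc : ∀ a, b a ≠ c a)
    (hne : ∀ a a', a ≠ a' → s(b a, c a) ≠ s(b a', c a')) :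
    ∃ κ : Fin 3 → V, Function.Injective κ ∧ ∀ a, κ a = b a ∨ κ a = c a := by
  classical
  have h := (Finset.all_card_le_biUnion_card_iff_exists_injective
    (fun a : Fin 3 => ({b a, c a} : Finset V))).1 (by
    intro s
    by_cases hs : s.card ≤ 2
    · rcases s.eq_empty_or_nonempty with h0 | ⟨a, ha⟩
      · rw [h0]; simp
      · refine hs.trans ?_
        have h2 : ({b a, c a} : Finset V).card = 2 := Finset.card_pair (hbc a)
        rw [← h2]
        exact Finset.card_le_card (Finset.subset_biUnion_of_mem (fun a : Fin 3 => ({b a, c a} : Finset V)) ha)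
    · push Not at hs
      have h3 : s.card ≤ 3 := by
        have := Finset.card_le_univ s
        rwa [Fintype.card_fin] at this
      have hu : s = Finset.univ := by
        rw [← Finset.card_eq_iff_eq_univ, Fintype.card_fin]; omega
      refine h3.trans ?_
      by_contra hcon
      push Not at hcon
      have h4 : ∀ a, ({b a, c a} : Finset V) = s.biUnion fun a => ({b a, c a} : Finset V) := by
        intro a
        apply Finset.eq_of_subset_of_card_le
        · exact Finset.subset_biUnion_of_mem (fun a : Fin 3 => ({b a, c a} : Finset V)) (by rw [hu]; simp)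
        · rw [Finset.card_pair (hbc a)]; omega
      have h5 : ({b 0, c 0} : Finset V) = {b 1, c 1} := (h4 0).trans (h4 1).symm
      apply hne 0 1 (by decide)
      rw [Sym2.eq_iff]
      have m1 : b 0 ∈ ({b 1, c 1} : Finset V) := by rw [← h5]; simp
      have m2 : c 0 ∈ ({b 1, c 1} : Finset V) := by rw [← h5]; simp
      simp only [Finset.mem_insert, Finset.mem_singleton] at m1 m2
      have := hbc 0
      rcases m1 with m1 | m1 <;> rcases m2 with m2 | m2
      · exact absurd (m1.trans m2.symm) this
      · exact Or.inl ⟨m1, m2⟩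
      · exact Or.inr ⟨m1, m2⟩
      · exact absurd (m1.trans m2.symm) this)
  obtain ⟨κ, h1, h2⟩ := h
  refine ⟨κ, h1, fun a => ?_⟩
  have := h2 a
  simpa using this

/-- **PL-3 (TSb).** Tripods with centre `x i`, one foot `t i 0` outside `U` and two feet `t i 1`, `t i 2` in `U`, disjoint
but for common first feet. -/
theorem TSb : ∃ A : ℕ, ∀ {V : Type} [Finite V] (H : SimpleGraph V) (X : Sym2 V → Sym2 V → Prop),
    (∀ f f', X f f' → X f' f) →
    (∀ f ∈ H.edgeSet, {f' | f' ∈ H.edgeSet ∧ X f f'}.ncard ≤ 1) → PlanarLike H X →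
    ∀ (U : Set V) {I : Type} [Finite I] (x : I → V) (t : I → Fin 3 → V)
      (W : ∀ i k, H.Walk (x i) (t i k)) (l : ℕ),
    (∀ i, x i ∉ U) → (∀ i, x i ≠ t i 0) → (∀ i, t i 0 ∉ U) → (∀ i, t i 1 ∈ U) → (∀ i, t i 2 ∈ U) →
    (∀ i, t i 1 ≠ t i 2) →
    (∀ i k, ∀ z ∈ (W i k).support, z ∈ U → z = t i k) →
    (∀ i k, k ≠ 0 → t i 0 ∉ (W i k).support) →
    (∀ i j, i ≠ j → ∀ k k', ∀ z ∈ (W i k).support, z ∈ (W j k').support →
      z ∈ U ∨ (z = t i 0 ∧ z = t j 0)) →
    (∀ i k, (W i k).length ≤ l) →
    (∀ i j, i ≠ j → t i 0 = t j 0 → s(t i 1, t i 2) ≠ s(t j 1, t j 2)) →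
    Nat.card I ≤ A * ((l + 1) * U.ncard + (Set.range fun i => t i 0).ncard) := by
  classical
  refine ⟨3000000, ?_⟩
  intro V _ H X hs h1 hP U I _ x t W l hxU hxt h0U h1U h2U h12 hin h0 hdis hlen hpair
  have := Fintype.ofFinite V
  have := Fintype.ofFinite I
  have hl0 : (0 : ℝ) < (l : ℝ) + 1 := by positivity
  -- edges of different walks are different
  have hedge : ∀ i j k k', ∀ f ∈ (W i k).edges, f ∈ (W j k').edges → i = j := by
    intro i j k k' f hf hf'
    by_contra hij
    induction f with
    | h u v =>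
      have huv : u ≠ v := ((W i k).adj_of_mem_edges hf).ne
      have hu := (W i k).fst_mem_support_of_mem_edges hf
      have hv := (W i k).snd_mem_support_of_mem_edges hf
      have hu' := (W j k').fst_mem_support_of_mem_edges hf'
      have hv' := (W j k').snd_mem_support_of_mem_edges hf'
      have key : ∀ a b : V, a ∈ (W i k).support → b ∈ (W i k).support → a ∈ U → b = t i 0 → False := by
        intro a b ha hb haU hbt
        have e1 := hin i k a ha haU
        by_cases hk : k = 0
        · subst hk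
          exact h0U i (e1 ▸ haU)
        · exact h0 i k hk (hbt ▸ hb)
      rcases hdis i j hij k k' u hu hu' with a1 | a1 <;>
        rcases hdis i j hij k k' v hv hv' with a2 | a2
      · exact huv ((hin i k u hu a1).trans (hin i k v hv a2).symm)
      · exact key u v hu hv a1 a2.1
      · exact key v u hv hu a2 a1.1
      · exact huv (a1.1.trans a2.1.symm)
  -- the foot of another family member
  have hfoot : ∀ i j k, t j 0 ∈ (W i k).support → t j 0 = t i 0 := by
    intro i j k h
    by_cases hij : i = j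
    · rw [hij]
    · rcases hdis i j hij k 0 (t j 0) h (SimpleGraph.Walk.end_mem_support _) with a1 | a1
      · exact absurd a1 (h0U j)
      · exact a1.1
  -- groups
  obtain ⟨m, hm1, hm2⟩ := groups (fun i => t i 0)
  let N : V → ℕ := fun s => {i | t i 0 = s}.ncard
  have hT : ∀ g : (Σ s : V, Fin ({i | t i 0 = s}.ncard / 3)), ∃ T : Tri H U, T.c = g.1 ∧
      (∀ v ∈ T.vs, ∃ a k, v ∈ (W (m g a) k).support) ∧
      (∀ f ∈ T.es, ∃ a k, f ∈ (W (m g a) k).edges) ∧ ∀ j, (T.W j).length ≤ 2 * l := by
    intro g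
    obtain ⟨κ, hκ1, hκ2⟩ := sdr (fun a => t (m g a) 1) (fun a => t (m g a) 2) (fun a => h12 _) (by
      intro a a' haa
      apply hpair
      · intro h
        exact haa (hm2 g a g a' h).2
      · rw [hm1, hm1])
    have hk : ∀ a, ∃ k : Fin 3, k ≠ 0 ∧ t (m g a) k = κ a := by
      intro a
      rcases hκ2 a with h | h
      · exact ⟨1, by decide, h.symm⟩
      · exact ⟨2, by decide, h.symm⟩
    choose k hk0 hk1 using hk
    have hκU : ∀ a, κ a ∈ U := by
      intro a
      rcases hκ2 a with h | h
      · rw [h]; exact h1U _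
      · rw [h]; exact h2U _
    have hsupp : ∀ a, ∀ z ∈ (((W (m g a) 0).reverse.append (W (m g a) (k a))).copy (hm1 g a) (hk1 a)).support,
        z ∈ (W (m g a) 0).support ∨ z ∈ (W (m g a) (k a)).support := by
      intro a z hz
      rw [SimpleGraph.Walk.support_copy, SimpleGraph.Walk.mem_support_append_iff,
        SimpleGraph.Walk.support_reverse, List.mem_reverse] at hz
      exact hz
    refine ⟨⟨g.1, κ, fun a => ((W (m g a) 0).reverse.append (W (m g a) (k a))).copy (hm1 g a) (hk1 a),
      ?_, hκU, hκ1, ?_⟩, rfl, ?_, ?_, ?_⟩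
    · rw [← hm1 g 0]; exact h0U _
    · intro a z hz hzU
      rcases hsupp a z hz with h | h
      · exact absurd (hin _ _ z h hzU ▸ hzU) (h0U _)
      · exact (hin _ _ z h hzU).trans (hk1 a)
    · rintro v ⟨_, a, hv⟩
      rcases hsupp a v hv with h | h
      · exact ⟨a, 0, h⟩
      · exact ⟨a, k a, h⟩
    · rintro f ⟨a, hf⟩
      change f ∈ (((W (m g a) 0).reverse.append (W (m g a) (k a))).copy (hm1 g a) (hk1 a)).edges at hf
      rw [SimpleGraph.Walk.edges_copy, SimpleGraph.Walk.edges_append, List.mem_append,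
        SimpleGraph.Walk.edges_reverse, List.mem_reverse] at hf
      rcases hf with h | h
      · exact ⟨a, 0, h⟩
      · exact ⟨a, k a, h⟩
    · intro a
      change (((W (m g a) 0).reverse.append (W (m g a) (k a))).copy (hm1 g a) (hk1 a)).length ≤ 2 * l
      rw [SimpleGraph.Walk.length_copy, SimpleGraph.Walk.length_append, SimpleGraph.Walk.length_reverse]
      have := hlen (m g a) 0
      have := hlen (m g a) (k a)
      omega
  choose T hTc hTv hTe hTl using hT
  let tt : V → ℕ := fun s => {i | t i 0 = s}.ncard / 3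
  let mu : (Σ s : V, Fin ({i | t i 0 = s}.ncard / 3)) → ℝ := fun g =>
    min (1 / ((l : ℝ) + 1)) (1 / (tt g.1 : ℝ))
  have hsum := tri_sum X hs h1 hP T mu l (by
      intro g g' f hf hf'
      obtain ⟨a, k, h⟩ := hTe g f hf
      obtain ⟨a', k', h'⟩ := hTe g' f hf'
      exact (hm2 _ _ _ _ (hedge _ _ _ _ f h h')).1) (by
      intro g g' v hv hv' hvc
      obtain ⟨a, k, h⟩ := hTv g v hv
      obtain ⟨a', k', h'⟩ := hTv g' v hv'
      by_cases hmm : m g a = m g' a'
      · exact (hm2 _ _ _ _ hmm).1
      · rcases hdis _ _ hmm k k' v h h' with a1 | a1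
        · exact absurd a1 hv.1
        · exact absurd (a1.1.trans ((hm1 g a).trans (hTc g).symm)) hvc) (by
      intro g
      positivity) (by
      intro g
      exact min_le_left _ _) (by
      intro g S hS
      -- all members of `S` have the same centre
      have hfst : ∀ g' ∈ S, g'.1 = g.1 := by
        intro g' hg'
        obtain ⟨a', k', h'⟩ := hTv g' _ (hS g' hg')
        rw [hTc g, ← hm1 g 0] at h'
        have := hfoot _ _ _ h'
        rw [hm1 g 0, hm1 g' a'] at this
        exact this.symm
      have hcard : S.card ≤ tt g.1 := by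
        have hinj : Set.InjOn (fun g' : (Σ s : V, Fin ({i | t i 0 = s}.ncard / 3)) => g'.2.1) (S : Set _) := by
          rintro ⟨s1, j1⟩ hg1 ⟨s2, j2⟩ hg2 h12
          have e1 := hfst _ hg1
          have e2 := hfst _ hg2
          simp only at e1 e2 h12
          subst e1
          subst e2
          have : j1 = j2 := Fin.ext h12
          rw [this]
        have h3 := Finset.card_le_card_of_injOn (s := S) (t := Finset.range (tt g.1))
          (fun g' => g'.2.1) (by
            intro g' hg'
            rw [Finset.mem_coe, Finset.mem_range]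
            have h4 := g'.2.2
            have h5 : tt g'.1 = tt g.1 := by rw [hfst g' hg']
            have h6 : (g'.2 : ℕ) < tt g'.1 := h4
            rw [h5] at h6
            exact h6) hinj
        rwa [Finset.card_range] at h3
      have hmu1 : ∀ g' ∈ S, mu g' ≤ 1 / (tt g.1 : ℝ) := by
        intro g' hg'
        have : mu g' ≤ 1 / (tt g'.1 : ℝ) := min_le_right _ _
        rwa [hfst g' hg'] at this
      refine (Finset.sum_le_card_nsmul _ _ _ hmu1).trans ?_
      rw [nsmul_eq_mul]
      rcases Nat.eq_zero_or_pos (tt g.1) with h0 | h0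
      · rw [h0] at hcard ⊢
        simp
      · have h3 : (0 : ℝ) < tt g.1 := by exact_mod_cast h0
        have h4 : (S.card : ℝ) ≤ tt g.1 := by exact_mod_cast hcard
        rw [mul_one_div, div_le_one h3]
        exact h4) hTl
  rw [Fintype.sum_sigma] at hsum
  have hsum2 : ∑ s : V, (tt s : ℝ) * min (1 / ((l : ℝ) + 1)) (1 / (tt s : ℝ)) ≤ 13 * (132 * U.ncard) := by
    refine le_trans (le_of_eq ?_) hsum
    refine Finset.sum_congr rfl fun s _ => ?_
    show _ = ∑ y : Fin (tt s), min (1 / ((l : ℝ) + 1)) (1 / (tt s : ℝ))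
    rw [Finset.sum_const, Finset.card_univ, Fintype.card_fin, nsmul_eq_mul]
  -- rich feet
  let R : Finset V := Finset.univ.filter fun s => l + 1 ≤ tt s
  have hterm0 : ∀ s : V, 0 ≤ (tt s : ℝ) * min (1 / ((l : ℝ) + 1)) (1 / (tt s : ℝ)) := by
    intro s; positivity
  have hR : (R.card : ℝ) ≤ 13 * (132 * U.ncard) := by
    refine le_trans ?_ hsum2
    calc (R.card : ℝ) = ∑ s ∈ R, (1 : ℝ) := by simp
      _ ≤ ∑ s ∈ R, (tt s : ℝ) * min (1 / ((l : ℝ) + 1)) (1 / (tt s : ℝ)) := by
          refine Finset.sum_le_sum fun s hs' => ?_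
          have h2 := (Finset.mem_filter.1 hs').2
          have h3 : ((l : ℝ) + 1) ≤ tt s := by exact_mod_cast h2
          have h4 : (0 : ℝ) < tt s := by linarith
          rw [min_eq_right (one_div_le_one_div_of_le hl0 h3), mul_one_div, div_self h4.ne']
      _ ≤ _ := Finset.sum_le_sum_of_subset_of_nonneg (Finset.subset_univ _) (fun s _ _ => hterm0 s)
  have hpoor : ∑ s ∈ Rᶜ, (tt s : ℝ) ≤ (l + 1) * (13 * (132 * U.ncard)) := by
    have h2 : ∑ s ∈ Rᶜ, (tt s : ℝ) * (1 / ((l : ℝ) + 1)) ≤ 13 * (132 * U.ncard) := by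
      refine le_trans ?_ hsum2
      refine le_trans ?_ (Finset.sum_le_sum_of_subset_of_nonneg (Finset.subset_univ Rᶜ)
        (fun s _ _ => hterm0 s))
      refine Finset.sum_le_sum fun s hs' => ?_
      have h3 : ¬ (l + 1 ≤ tt s) := by
        intro h
        exact (Finset.mem_compl.1 hs') (Finset.mem_filter.2 ⟨Finset.mem_univ _, h⟩)
      rcases Nat.eq_zero_or_pos (tt s) with h4 | h4
      · rw [h4]; simp
      · have h5 : (0 : ℝ) < tt s := by exact_mod_cast h4
        have h6 : (tt s : ℝ) ≤ (l : ℝ) + 1 := by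
          have : tt s ≤ l + 1 := by omega
          exact_mod_cast this
        rw [min_eq_left (one_div_le_one_div_of_le h5 h6)]
    rw [← Finset.sum_mul, mul_one_div, div_le_iff₀ hl0] at h2
    linarith
  have hRn : R.card ≤ 1716 * U.ncard := by
    have : (R.card : ℝ) ≤ ((1716 * U.ncard : ℕ) : ℝ) := by push_cast; linarith
    exact_mod_cast this
  have hpoorn : ∑ s ∈ Rᶜ, tt s ≤ 1716 * ((l + 1) * U.ncard) := by
    have : ((∑ s ∈ Rᶜ, tt s : ℕ) : ℝ) ≤ ((1716 * ((l + 1) * U.ncard) : ℕ) : ℝ) := by
      push_cast; linarith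
    exact_mod_cast this
  -- the members with poor feet
  have hfib : ∀ S : Finset V, {i | t i 0 ∈ S}.ncard = ∑ s ∈ S, N s := by
    intro S
    have e1 : {i | t i 0 ∈ S}.ncard = (Finset.univ.filter fun i => t i 0 ∈ S).card := by
      rw [← Set.ncard_coe_finset]; congr 1; ext i; simp
    rw [e1, Finset.card_eq_sum_card_fiberwise (t := S) (f := fun i => t i 0) (by
      intro i hi
      exact (Finset.mem_filter.1 hi).2)]
    refine Finset.sum_congr rfl fun s hs' => ?_
    show _ = {i | t i 0 = s}.ncard
    rw [← Set.ncard_coe_finset]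
    congr 1
    ext i
    simp only [Finset.coe_filter, Finset.mem_filter, Finset.mem_univ, true_and, Set.mem_ofPred_eq]
    constructor
    · exact fun h => h.2
    · exact fun h => ⟨h ▸ hs', h⟩
  have hpc : {i | t i 0 ∈ Rᶜ}.ncard ≤ 3 * (∑ s ∈ Rᶜ, tt s) + 2 * (Set.range fun i => t i 0).ncard := by
    rw [hfib]
    have e2 : ∑ s ∈ Rᶜ, N s ≤ ∑ s ∈ Rᶜ, (3 * tt s + if s ∈ (Set.range fun i => t i 0) then 2 else 0) := by
      refine Finset.sum_le_sum fun s _ => ?_
      by_cases hsr : s ∈ (Set.range fun i => t i 0)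
      · rw [if_pos hsr]
        show {i | t i 0 = s}.ncard ≤ 3 * ({i | t i 0 = s}.ncard / 3) + 2
        omega
      · rw [if_neg hsr]
        have : {i | t i 0 = s} = ∅ := by
          ext i
          simp only [Set.mem_ofPred_eq, Set.mem_empty_iff_false, iff_false]
          intro h
          exact hsr ⟨i, h⟩
        show {i | t i 0 = s}.ncard ≤ _
        rw [this]; simp
    refine e2.trans ?_
    rw [Finset.sum_add_distrib, ← Finset.mul_sum]
    refine Nat.add_le_add_left ?_ _
    rw [← Finset.sum_filter, Finset.sum_const, smul_eq_mul, mul_comm]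
    refine Nat.mul_le_mul_left _ ?_
    rw [← Set.ncard_coe_finset]
    refine Set.ncard_le_ncard ?_ (Set.toFinite _)
    intro s hs'
    exact (Finset.mem_filter.1 (Finset.mem_coe.1 hs')).2
  -- the members with rich feet
  have hrc : {i | t i 0 ∈ R}.ncard ≤ 1716 * ((l + 1) * (U.ncard + R.card)) := by
    let U2 : Set V := U ∪ (R : Set V)
    have hRfoot : ∀ s ∈ R, ∃ j, t j 0 = s := by
      intro s hs'
      have h2 := (Finset.mem_filter.1 hs').2
      have h3 : 0 < {i | t i 0 = s}.ncard := by
        have h4 : l + 1 ≤ {i | t i 0 = s}.ncard / 3 := h2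
        omega
      obtain ⟨j, hj⟩ := (Set.ncard_pos (Set.toFinite _)).1 h3
      exact ⟨j, hj⟩
    have hRU : ∀ s ∈ R, s ∉ U := by
      intro s hs'
      obtain ⟨j, rfl⟩ := hRfoot s hs'
      exact h0U j
    let J := {i // t i 0 ∈ R}
    let T2 : J → Tri H U2 := fun i =>
      { c := x i.1
        b := t i.1
        W := W i.1
        c_U := by
          rintro (h | h)
          · exact hxU _ h
          · obtain ⟨j, hj⟩ := hRfoot _ h
            have h2 : t j 0 ∈ (W i.1 0).support := by
              rw [hj]; exact SimpleGraph.Walk.start_mem_support _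
            exact hxt i.1 (hj.symm.trans (hfoot _ _ _ h2))
        b_U := by
          intro j
          fin_cases j
          · exact Or.inr i.2
          · exact Or.inl (h1U _)
          · exact Or.inl (h2U _)
        b_inj := by
          have a01 : t i.1 0 ≠ t i.1 1 := fun h => h0U i.1 (h ▸ h1U i.1)
          have a02 : t i.1 0 ≠ t i.1 2 := fun h => h0U i.1 (h ▸ h2U i.1)
          have a12 := h12 i.1
          intro a b hab
          fin_cases a <;> fin_cases b
          · rfl
          · exact absurd hab a01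
          · exact absurd hab a02
          · exact absurd hab.symm a01
          · rfl
          · exact absurd hab a12
          · exact absurd hab.symm a02
          · exact absurd hab.symm a12
          · rfl
        inner := by
          intro k z hz hzU
          rcases hzU with h | h
          · exact hin _ _ z hz h
          · obtain ⟨j, hj⟩ := hRfoot _ h
            rw [← hj] at hz
            have h2 := hfoot _ _ _ hz
            by_cases hk : k = 0
            · subst hk
              exact hj.symm.trans h2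
            · rw [h2] at hz
              exact absurd hz (h0 _ _ hk) }
    have hdj : ∀ i j : J, ∀ v ∈ (T2 i).vs, v ∈ (T2 j).vs → i = j := by
      rintro i j v ⟨hvU, k, hv⟩ ⟨_, k', hv'⟩
      by_contra hij
      have hij' : i.1 ≠ j.1 := fun h => hij (Subtype.ext h)
      rcases hdis _ _ hij' k k' v hv hv' with a1 | a1
      · exact hvU (Or.inl a1)
      · exact hvU (Or.inr (a1.1 ▸ i.2))
    have hsum3 := tri_sum X hs h1 hP T2 (fun _ => 1 / ((l : ℝ) + 1)) l (by
        rintro i j f ⟨k, hf⟩ ⟨k', hf'⟩
        exact Subtype.ext (hedge _ _ k k' f hf hf')) (by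
        intro i j v hv hv' _
        exact hdj i j v hv hv') (by
        intro i
        positivity) (by
        intro i
        exact le_rfl) (by
        intro i S hS
        have h2 : S ⊆ {i} := by
          intro j hj
          rw [Finset.mem_singleton]
          exact (hdj i j _ (c_mem_vs _) (hS j hj)).symm
        have h3 := Finset.card_le_card h2
        rw [Finset.card_singleton] at h3
        rw [Finset.sum_const, nsmul_eq_mul]
        have h4 : (S.card : ℝ) ≤ 1 := by exact_mod_cast h3
        have h5 : 1 / ((l : ℝ) + 1) ≤ 1 := by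
          rw [div_le_one hl0]
          have : (0 : ℝ) ≤ l := by positivity
          linarith
        have h6 : 0 ≤ 1 / ((l : ℝ) + 1) := by positivity
        have h7 : (0 : ℝ) ≤ S.card := by positivity
        nlinarith) (by
        intro i j
        have h2 : ((T2 i).W j).length ≤ l := hlen _ _
        omega)
    rw [Finset.sum_const, Finset.card_univ, nsmul_eq_mul, mul_one_div, div_le_iff₀ hl0] at hsum3
    have hU2 : U2.ncard ≤ U.ncard + R.card := by
      refine (Set.ncard_union_le _ _).trans ?_
      rw [Set.ncard_coe_finset]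
    have e3 : {i | t i 0 ∈ R}.ncard = Fintype.card J := by
      rw [← Nat.card_eq_fintype_card]
      rfl
    rw [e3]
    have h8 : (Fintype.card J : ℝ) ≤ ((1716 * ((l + 1) * (U.ncard + R.card)) : ℕ) : ℝ) := by
      have h9 : (U2.ncard : ℝ) ≤ U.ncard + R.card := by exact_mod_cast hU2
      push_cast
      refine hsum3.trans ?_
      have h10 : (U2.ncard : ℝ) * ((l : ℝ) + 1) ≤ (U.ncard + R.card) * ((l : ℝ) + 1) :=
        mul_le_mul_of_nonneg_right h9 hl0.le
      linarith
    exact_mod_cast h8
  have htot : Nat.card I = {i | t i 0 ∈ R}.ncard + {i | t i 0 ∈ Rᶜ}.ncard := by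
    have e4 : {i | t i 0 ∈ Rᶜ} = {i | t i 0 ∈ R}ᶜ := by
      ext i; simp
    rw [e4, Set.ncard_add_ncard_compl]
  rw [htot]
  have h20 : (l + 1) * (U.ncard + R.card) ≤ (l + 1) * (1717 * U.ncard) :=
    Nat.mul_le_mul_left _ (by omega)
  calc {i | t i 0 ∈ R}.ncard + {i | t i 0 ∈ Rᶜ}.ncard
      ≤ 1716 * ((l + 1) * (1717 * U.ncard)) +
        (3 * (1716 * ((l + 1) * U.ncard)) + 2 * (Set.range fun i => t i 0).ncard) := by
        have := Nat.mul_le_mul_left 1716 h20
        omega
    _ = 2951520 * ((l + 1) * U.ncard) + 2 * (Set.range fun i => t i 0).ncard := by ring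
    _ ≤ 3000000 * ((l + 1) * U.ncard + (Set.range fun i => t i 0).ncard) := by
        have : 0 ≤ (l + 1) * U.ncard := Nat.zero_le _
        omega

end Pool.Agent.Helper26.PL
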